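import Mathlib
import Pool.Agent.Helper26.PE.Defs
import Pool.Agent.Helper68.CO2.Liou
import Pool.Agent.Helper87.QG.Count
import Pool.Agent.Helper87.QS.Assemble
import Pool.Agent.Helper88.QS.ParD
import Pool.Agent.Helper21.QS.ChainEnd

/-!
# QG: separated bad windows anywhere in `[N ^ 2, 4 N ^ 2]`
-/

set_option autoImplicit false

open Finset

namespace Pool.Agent.Helper87.QG

open Pool.Agent.Helper26.PE (la)
open Pool.Agent.Helper68.CO2 (lam cm_lam)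
open Pool.Agent.Helper87.QS (la_lam lam_sq)

/-- the relation at a number which is hit -/
theorem hit_rel {m a w q : ℕ} {T : ℝ} {s : ℤˣ} {Z : Set ℕ}
    (hZ : ∀ z : ℕ, m < z → (z : ℝ) ≤ (m : ℝ) + T → z ∉ Z → lam z = s)
    (ha : 1 ≤ a) (hw : m / a = w) (hd : ∀ z ∈ Z, ¬ a ∣ z) (hq : 1 ≤ q)
    (hqa : (q : ℝ) * a ≤ T) : la (w / q + 1) = la q * la (w + 1) := by
  have haR : (1 : ℝ) ≤ a := by exact_mod_cast ha
  have hqR : (1 : ℝ) ≤ q := by exact_mod_cast hq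
  have haT : (a : ℝ) ≤ T := by nlinarith
  have h1 : lam (a * (w + 1)) = s := by
    refine hZ _ ?_ ?_ ?_
    · rw [← hw]
      exact Nat.lt_mul_div_succ _ (by omega)
    · have e1 : a * w ≤ m := by rw [← hw]; exact Nat.mul_div_le _ _
      have e2 : ((a * w : ℕ) : ℝ) ≤ ((m : ℕ) : ℝ) := by exact_mod_cast e1
      push_cast at e2 ⊢
      linarith
    · intro hz
      exact hd _ hz (Dvd.intro _ rfl)
  have h2 : lam (a * q * (w / q + 1)) = s := by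
    have e0 : w / q = m / (a * q) := by rw [← hw, Nat.div_div_eq_div_mul]
    rw [e0]
    have haq : 0 < a * q := Nat.mul_pos (by omega) (by omega)
    refine hZ _ (Nat.lt_mul_div_succ _ haq) ?_ ?_
    · have e1 : a * q * (m / (a * q)) ≤ m := Nat.mul_div_le _ _
      have e2 : ((a * q * (m / (a * q)) : ℕ) : ℝ) ≤ ((m : ℕ) : ℝ) := by exact_mod_cast e1
      rw [Nat.cast_mul] at e2 ⊢
      push_cast at e2 ⊢
      linarith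
    · intro hz
      exact hd _ hz ⟨q * (m / (a * q) + 1), by ring⟩
  have ha0 : a ≠ 0 := by omega
  have hq0 : q ≠ 0 := by omega
  have h3 : lam (w / q + 1) = lam q * lam (w + 1) := by
    rw [cm_lam a (w + 1) ha0 (Nat.succ_ne_zero _)] at h1
    rw [cm_lam (a * q) (w / q + 1) (Nat.mul_ne_zero ha0 hq0) (Nat.succ_ne_zero _),
      cm_lam a q ha0 hq0, mul_assoc] at h2
    have h4 : lam (w + 1) = lam q * lam (w / q + 1) := mul_left_cancel (h1.trans h2.symm)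
    rw [h4, ← mul_assoc, lam_sq, one_mul]
  rw [la_lam, la_lam, la_lam, h3]
  push_cast
  rfl

theorem dcount_sub (K : Finset ℕ) (Z : ℕ → Finset ℕ) (hZ : ∀ m ∈ K, ∀ z ∈ Z m, 1 ≤ z) :
    {w : ℕ | ∃ m ∈ K, ∃ a : ℕ, 1 ≤ a ∧ m / a = w ∧ ∃ z ∈ Z m, a ∣ z} ⊆
      ((K.biUnion fun m => (Z m).biUnion fun z => z.divisors.image fun a => m / a : Finset ℕ) :
        Set ℕ) := by
  rintro w ⟨m, hm, a, _, hw, z, hz, haz⟩
  rw [Finset.mem_coe, Finset.mem_biUnion]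
  refine ⟨m, hm, ?_⟩
  rw [Finset.mem_biUnion]
  refine ⟨z, hz, ?_⟩
  rw [Finset.mem_image]
  exact ⟨a, Nat.mem_divisors.2 ⟨haz, by have := hZ m hm z hz; omega⟩, hw⟩

/-- the set of `dcount` is finite -/
theorem dcount_finite (K : Finset ℕ) (Z : ℕ → Finset ℕ) (hZ : ∀ m ∈ K, ∀ z ∈ Z m, 1 ≤ z) :
    {w : ℕ | ∃ m ∈ K, ∃ a : ℕ, 1 ≤ a ∧ m / a = w ∧ ∃ z ∈ Z m, a ∣ z}.Finite :=
  (Finset.finite_toSet _).subset (dcount_sub K Z hZ)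

theorem dcount (c : ℝ) (hc : 0 < c) : ∃ C' : ℝ, ∀ N : ℕ, 1 ≤ N → ∀ (K : Finset ℕ)
    (Z : ℕ → Finset ℕ) (E : ℝ), (∀ m ∈ K, ∀ z ∈ Z m, 1 ≤ z ∧ z ≤ 5 * N ^ 2) →
    (∀ m ∈ K, (#(Z m) : ℝ) ≤ E) →
    ({w : ℕ | ∃ m ∈ K, ∃ a : ℕ, 1 ≤ a ∧ m / a = w ∧ ∃ z ∈ Z m, a ∣ z}.ncard : ℝ) ≤
      C' * (N : ℝ) ^ c * #K * E := by
  classical
  obtain ⟨C1, hC1, hd⟩ := Pool.Agent.M17.Helper89.SLE.divisor_bound (c / 2) (by linarith)
  refine ⟨C1 * (5 : ℝ) ^ (c / 2), ?_⟩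
  intro N hN K Z E hZ hE
  have hN0 : (0 : ℝ) ≤ N := Nat.cast_nonneg _
  have hsub := dcount_sub K Z fun m hm z hz => (hZ m hm z hz).1
  have h1 := Set.ncard_le_ncard hsub (Finset.finite_toSet _)
  rw [Set.ncard_coe_finset] at h1
  have h2 : (#(K.biUnion fun m => (Z m).biUnion fun z => z.divisors.image fun a => m / a) : ℝ) ≤
      ∑ m ∈ K, ∑ z ∈ Z m, ((z.divisors.card : ℕ) : ℝ) := by
    have h3 : #(K.biUnion fun m => (Z m).biUnion fun z => z.divisors.image fun a => m / a) ≤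
        ∑ m ∈ K, ∑ z ∈ Z m, z.divisors.card := by
      refine Finset.card_biUnion_le.trans (Finset.sum_le_sum fun m _ => ?_)
      refine Finset.card_biUnion_le.trans (Finset.sum_le_sum fun z _ => ?_)
      exact Finset.card_image_le
    exact_mod_cast h3
  have h4 : ∑ m ∈ K, ∑ z ∈ Z m, ((z.divisors.card : ℕ) : ℝ) ≤
      ∑ m ∈ K, E * (C1 * (5 : ℝ) ^ (c / 2) * (N : ℝ) ^ c) := by
    refine Finset.sum_le_sum fun m hm => ?_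
    have h5 : ∀ z ∈ Z m, ((z.divisors.card : ℕ) : ℝ) ≤ C1 * (5 : ℝ) ^ (c / 2) * (N : ℝ) ^ c := by
      intro z hz
      have hz' := hZ m hm z hz
      refine (hd z (by omega)).trans ?_
      rw [mul_assoc]
      apply mul_le_mul_of_nonneg_left _ (by linarith)
      have h6 : (z : ℝ) ≤ 5 * (N : ℝ) ^ 2 := by exact_mod_cast hz'.2
      calc (z : ℝ) ^ (c / 2) ≤ (5 * (N : ℝ) ^ 2) ^ (c / 2) :=
            Real.rpow_le_rpow (Nat.cast_nonneg _) h6 (by linarith)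
        _ = (5 : ℝ) ^ (c / 2) * ((N : ℝ) ^ 2) ^ (c / 2) :=
            Real.mul_rpow (by norm_num) (by positivity)
        _ = (5 : ℝ) ^ (c / 2) * (N : ℝ) ^ c := by
            rw [← Real.rpow_natCast (N : ℝ) 2, ← Real.rpow_mul hN0]
            congr 2
            push_cast
            ring
    refine (Finset.sum_le_card_nsmul _ _ _ h5).trans ?_
    rw [nsmul_eq_mul]
    exact mul_le_mul_of_nonneg_right (hE m hm) (by positivity)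
  rw [Finset.sum_const, nsmul_eq_mul] at h4
  calc (Set.ncard {w : ℕ | ∃ m ∈ K, ∃ a : ℕ, 1 ≤ a ∧ m / a = w ∧ ∃ z ∈ Z m, a ∣ z} : ℝ)
      ≤ (#(K.biUnion fun m => (Z m).biUnion fun z => z.divisors.image fun a => m / a) : ℝ) := by
        exact_mod_cast h1
    _ ≤ #K * (E * (C1 * (5 : ℝ) ^ (c / 2) * (N : ℝ) ^ c)) := h2.trans h4
    _ = _ := by ring

/-- the block from its ingredients -/
theorem block_of (δ ε : ℝ)
    {c : ℝ} {b : ℕ} {C' : ℝ} {X0 : ℕ}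
    (hchain : ∀ X W : ℕ, X0 ≤ X → 1 ≤ W → W ≤ X ^ b → ∀ Hit : Set ℕ,
      (∀ w ∈ Hit, ∀ q : ℕ, 1 ≤ q → q ≤ 5 * X → la (w / q + 1) = la q * la (w + 1)) →
      2 ^ (b + 2) * Set.ncard {w : ℕ | X * W ≤ 2 * w ∧ w ≤ 20 * X * W ∧ w ∉ Hit} ≤ W → False)
    (hdfin : ∀ N : ℕ, 1 ≤ N → ∀ (K : Finset ℕ) (Z : ℕ → Finset ℕ),
      (∀ m ∈ K, ∀ z ∈ Z m, 1 ≤ z ∧ z ≤ 5 * N ^ 2) →
      {w : ℕ | ∃ m ∈ K, ∃ a : ℕ, 1 ≤ a ∧ m / a = w ∧ ∃ z ∈ Z m, a ∣ z}.Finite)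
    (hdcount : ∀ N : ℕ, 1 ≤ N → ∀ (K : Finset ℕ) (Z : ℕ → Finset ℕ) (E : ℝ),
      (∀ m ∈ K, ∀ z ∈ Z m, 1 ≤ z ∧ z ≤ 5 * N ^ 2) → (∀ m ∈ K, (#(Z m) : ℝ) ≤ E) →
      ({w : ℕ | ∃ m ∈ K, ∃ a : ℕ, 1 ≤ a ∧ m / a = w ∧ ∃ z ∈ Z m, a ∣ z}.ncard : ℝ) ≤
        C' * (N : ℝ) ^ c * #K * E)
    {N : ℕ} (hδ : 0 ≤ δ)
    (hpar : ∃ (X W R : ℕ) (H : ℕ → ℕ), X0 ≤ X ∧ 1 ≤ N ∧ 1 ≤ W ∧ W ≤ X ^ b ∧ 1 ≤ R ∧
      (R : ℝ) ≤ (N : ℝ) ^ ε ∧ 6 ≤ X * W ∧ 40 * (N : ℝ) ^ 2 ≤ W * (N : ℝ) ^ (1 - δ) ∧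
      N ≤ X * W / 2 ∧ (∀ i < 6, 512 * (2 ^ i * (X * W / 2)) ^ 4 ≤ H i * N ^ 4) ∧
      2 ^ (b + 2) * (∑ i ∈ range 6, 64 * ((2 ^ i * (X * W / 2) : ℕ) : ℝ) ^ 2 / N * (H i : ℝ) ^ 2 *
        (1 + Real.log (8 * H i * N : ℕ)) / R + C' * (N : ℝ) ^ c * R * (2 * (N : ℝ) ^ (1 - ε))) ≤ W)
    (B : Finset ℕ) (hB : ∀ m ∈ B, N ^ 2 ≤ m ∧ m ≤ 4 * N ^ 2)
    (hsep : ∀ m ∈ B, ∀ m' ∈ B, m ≠ m' → (N : ℤ) ≤ |(m : ℤ) - m'|)
    (hbad : ∀ m ∈ B, ∃ s : ℤˣ, ({z : ℕ | m < z ∧ (z : ℝ) ≤ (m : ℝ) + (N : ℝ) ^ (1 - δ) ∧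
      lam z ≠ s}.ncard : ℝ) ≤ 2 * (N : ℝ) ^ (1 - ε)) : (#B : ℝ) ≤ (N : ℝ) ^ ε := by
  classical
  by_contra hcon
  push Not at hcon
  obtain ⟨X, W, R, H, hX, hN1, hW1, hWX, hR1, hRε, h6, h40, hNU, hH, hfin⟩ := hpar
  have hNR : (1 : ℝ) ≤ N := by exact_mod_cast hN1
  obtain ⟨T, hT⟩ : ∃ T : ℝ, T = (N : ℝ) ^ (1 - δ) := ⟨_, rfl⟩
  have hTN : T ≤ N := by
    rw [hT]
    calc (N : ℝ) ^ (1 - δ) ≤ (N : ℝ) ^ (1 : ℝ) :=
          Real.rpow_le_rpow_of_exponent_le hNR (by linarith)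
      _ = N := Real.rpow_one _
  rw [← hT] at h40 hbad
  have hRB : R ≤ #B := by
    have : (R : ℝ) ≤ #B := hRε.trans hcon.le
    exact_mod_cast this
  obtain ⟨K, hKB, hKc⟩ := Finset.exists_subset_card_eq hRB
  choose! s hs using hbad
  have hZfin : ∀ m : ℕ, {z : ℕ | m < z ∧ (z : ℝ) ≤ (m : ℝ) + T ∧ lam z ≠ s m}.Finite := by
    intro m
    refine (Set.finite_Iic ⌊(m : ℝ) + T⌋₊).subset ?_
    rintro z ⟨_, h2, _⟩
    exact Nat.le_floor h2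
  obtain ⟨Z, hZ⟩ : ∃ Z : ℕ → Finset ℕ, ∀ m, Z m = (hZfin m).toFinset := ⟨_, fun _ => rfl⟩
  have hmZ : ∀ m z : ℕ, z ∈ Z m ↔ (m < z ∧ (z : ℝ) ≤ (m : ℝ) + T ∧ lam z ≠ s m) := by
    intro m z
    rw [hZ, Set.Finite.mem_toFinset]
    rfl
  have hZ1 : ∀ m ∈ K, ∀ z ∈ Z m, 1 ≤ z ∧ z ≤ 5 * N ^ 2 := by
    intro m hm z hz
    rw [hmZ] at hz
    obtain ⟨h1, h2, _⟩ := hz
    refine ⟨by omega, ?_⟩
    have h4 : (m : ℝ) ≤ 4 * (N : ℝ) ^ 2 := by exact_mod_cast (hB m (hKB hm)).2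
    have h5 : (N : ℝ) ≤ N ^ 2 := by nlinarith
    have h6 : (z : ℝ) ≤ ((5 * N ^ 2 : ℕ) : ℝ) := by
      push_cast
      nlinarith
    exact_mod_cast h6
  have hZ2 : ∀ m ∈ K, (#(Z m) : ℝ) ≤ 2 * (N : ℝ) ^ (1 - ε) := by
    intro m hm
    have h1 := hs m (hKB hm)
    rw [Set.ncard_eq_toFinset_card _ (hZfin m), ← hZ] at h1
    exact h1
  obtain ⟨Hit, hHit⟩ : ∃ Hit : Set ℕ, Hit = {w : ℕ | X * W ≤ 2 * w ∧ ∃ m ∈ K, ∃ a : ℕ, 1 ≤ a ∧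
      m / a = w ∧ ∀ z ∈ Z m, ¬ a ∣ z} := ⟨_, rfl⟩
  refine hchain X W hX hW1 hWX Hit ?_ ?_
  · -- the relation
    intro w hw q hq1 hq2
    rw [hHit] at hw
    obtain ⟨hXw, m, hm, a, ha, hma, hd⟩ := hw
    refine hit_rel (T := T) (s := s m) (Z := (Z m : Set ℕ)) ?_ ha hma ?_ hq1 ?_
    · intro z h1 h2 h3
      by_contra h4
      exact h3 (mem_coe.2 ((hmZ m z).2 ⟨h1, h2, h4⟩))
    · intro z hz
      exact hd z (mem_coe.1 hz)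
    · have e3 : (m : ℝ) ≤ 4 * (N : ℝ) ^ 2 := by exact_mod_cast (hB m (hKB hm)).2
      have e1 : a * w ≤ m := by rw [← hma]; exact Nat.mul_div_le _ _
      have e2 : (a : ℝ) * w ≤ (m : ℝ) := by exact_mod_cast e1
      have e4 : (X : ℝ) * W ≤ 2 * w := by exact_mod_cast hXw
      have e5 : (q : ℝ) ≤ 5 * X := by exact_mod_cast hq2
      have haR : (0 : ℝ) ≤ a := Nat.cast_nonneg a
      have hWR : (0 : ℝ) < W := by exact_mod_cast hW1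
      have e6 : (a : ℝ) * (X * W) ≤ a * (2 * w) := mul_le_mul_of_nonneg_left e4 haR
      have e7 : 5 * X * a * W ≤ T * W := by nlinarith
      have e8 : 5 * X * a ≤ T := le_of_mul_le_mul_right e7 hWR
      have e9 : (q : ℝ) * a ≤ 5 * X * a := mul_le_mul_of_nonneg_right e5 haR
      linarith
  · -- the count
    obtain ⟨U, hU⟩ : ∃ U, U = X * W / 2 := ⟨_, rfl⟩
    rw [← hU] at hNU hH hfin
    obtain ⟨D, hD⟩ : ∃ D : Set ℕ, D = {w : ℕ | ∃ m ∈ K, ∃ a : ℕ, 1 ≤ a ∧ m / a = w ∧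
        ∃ z ∈ Z m, a ∣ z} := ⟨_, rfl⟩
    have hDfin : D.Finite := by
      rw [hD]
      exact hdfin N hN1 K Z hZ1
    have hDc : (D.ncard : ℝ) ≤ C' * (N : ℝ) ^ c * R * (2 * (N : ℝ) ^ (1 - ε)) := by
      rw [hD, ← hKc]
      exact hdcount N hN1 K Z _ hZ1 hZ2
    have hKne : K.Nonempty := by
      rw [← card_pos, hKc]
      omega
    have hKN : ∀ m ∈ K, N ^ 2 ≤ m ∧ m ≤ 4 * N ^ 2 := fun m hm => hB m (hKB hm)
    have hRR : (0 : ℝ) < R := by exact_mod_cast hR1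
    have hNH : ∀ i ∈ range 6, (#(NH K (2 ^ i * U)) : ℝ) ≤
        64 * ((2 ^ i * U : ℕ) : ℝ) ^ 2 / N * (H i : ℝ) ^ 2 *
        (1 + Real.log (8 * H i * N : ℕ)) / R := by
      intro i hi
      rw [mem_range] at hi
      rw [le_div_iff₀ hRR, ← hKc]
      refine nonhit N (2 ^ i * U) (H i) hN1 ?_ (hH i hi) K hKne hKN
        (fun m hm m' hm' => hsep m (hKB hm) m' (hKB hm'))
      exact hNU.trans (Nat.le_mul_of_pos_left _ (by positivity))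
    have hsub : {w : ℕ | X * W ≤ 2 * w ∧ w ≤ 20 * X * W ∧ w ∉ Hit} ⊆
        D ∪ (((range 6).biUnion fun i => NH K (2 ^ i * U) : Finset ℕ) : Set ℕ) := by
      rintro w ⟨h1, h2, h3⟩
      by_cases hw : w ∈ D
      · exact Or.inl hw
      · right
        have h4 : ∀ m ∈ K, ∀ a : ℕ, 1 ≤ a → m / a ≠ w := by
          intro m hm a ha hma
          apply h3
          rw [hHit]
          refine ⟨h1, m, hm, a, ha, hma, fun z hz hdz => hw ?_⟩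
          rw [hD]
          exact ⟨m, hm, a, ha, hma, z, hz, hdz⟩
        have h5 : U ≤ w := by
          rw [hU]
          omega
        have h6' : w < 64 * U := by
          have : 20 * X * W = 20 * (X * W) := by ring
          rw [this] at h2
          rw [hU]
          omega
        rw [mem_coe, mem_biUnion]
        have h7 : ∃ i < 6, 2 ^ i * U ≤ w ∧ w < 2 * (2 ^ i * U) := by
          by_cases g1 : w < 2 * U
          · exact ⟨0, by norm_num, by omega, by omega⟩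
          by_cases g2 : w < 4 * U
          · exact ⟨1, by norm_num, by omega, by omega⟩
          by_cases g3 : w < 8 * U
          · exact ⟨2, by norm_num, by omega, by omega⟩
          by_cases g4 : w < 16 * U
          · exact ⟨3, by norm_num, by omega, by omega⟩
          by_cases g5 : w < 32 * U
          · exact ⟨4, by norm_num, by omega, by omega⟩
          · exact ⟨5, by norm_num, by omega, by omega⟩
        obtain ⟨i, hi, h8, h9⟩ := h7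
        exact ⟨i, mem_range.2 hi, mem_NH.2 ⟨⟨h8, h9⟩, h4⟩⟩
    have hc1 : {w : ℕ | X * W ≤ 2 * w ∧ w ≤ 20 * X * W ∧ w ∉ Hit}.ncard ≤
        D.ncard + ∑ i ∈ range 6, #(NH K (2 ^ i * U)) := by
      refine (Set.ncard_le_ncard hsub (hDfin.union (finite_toSet _))).trans ?_
      refine (Set.ncard_union_le _ _).trans (add_le_add le_rfl ?_)
      rw [Set.ncard_coe_finset]
      exact card_biUnion_le
    have hc2 : (({w : ℕ | X * W ≤ 2 * w ∧ w ≤ 20 * X * W ∧ w ∉ Hit}.ncard : ℕ) : ℝ) ≤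
        ∑ i ∈ range 6, 64 * ((2 ^ i * U : ℕ) : ℝ) ^ 2 / N * (H i : ℝ) ^ 2 *
        (1 + Real.log (8 * H i * N : ℕ)) / R + C' * (N : ℝ) ^ c * R * (2 * (N : ℝ) ^ (1 - ε)) := by
      have e1 : (({w : ℕ | X * W ≤ 2 * w ∧ w ≤ 20 * X * W ∧ w ∉ Hit}.ncard : ℕ) : ℝ) ≤
          ((D.ncard + ∑ i ∈ range 6, #(NH K (2 ^ i * U)) : ℕ) : ℝ) := by exact_mod_cast hc1
      refine e1.trans ?_
      rw [Nat.cast_add, Nat.cast_sum, add_comm]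
      exact add_le_add (sum_le_sum hNH) hDc
    have hc3 : ((2 ^ (b + 2) * {w : ℕ | X * W ≤ 2 * w ∧ w ≤ 20 * X * W ∧ w ∉ Hit}.ncard : ℕ) : ℝ) ≤
        (W : ℝ) := by
      rw [Nat.cast_mul, Nat.cast_pow, Nat.cast_ofNat]
      exact (mul_le_mul_of_nonneg_left hc2 (by positivity)).trans hfin
    exact_mod_cast hc3

/-- few separated bad windows -/
theorem blockG (δ ε : ℝ) (hδ : 0 ≤ δ) (h : 10 * δ < ε) (hε1 : ε ≤ 1) : ∃ N0 : ℕ, ∀ N : ℕ, N0 ≤ N →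
    ∀ B : Finset ℕ, (∀ m ∈ B, N ^ 2 ≤ m ∧ m ≤ 4 * N ^ 2) →
    (∀ m ∈ B, ∀ m' ∈ B, m ≠ m' → (N : ℤ) ≤ |(m : ℤ) - m'|) →
    (∀ m ∈ B, ∃ s : ℤˣ, ({z : ℕ | m < z ∧ (z : ℝ) ≤ (m : ℝ) + (N : ℝ) ^ (1 - δ) ∧
      lam z ≠ s}.ncard : ℝ) ≤ 2 * (N : ℝ) ^ (1 - ε)) → (#B : ℝ) ≤ (N : ℝ) ^ ε := by
  obtain ⟨c, a, b, hc, ha, hb, hpar⟩ := Pool.Agent.Helper88.QS.pard δ ε hδ h hε1
  obtain ⟨C', hC'⟩ := dcount c hc
  obtain ⟨X0, hX0⟩ := Pool.Agent.Helper21.QS.chain_end b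
  obtain ⟨N0, hN0⟩ := hpar C' X0
  refine ⟨N0, fun N hN B hB hsep hbad => ?_⟩
  exact block_of δ ε hX0 (fun N _ K Z hZ => dcount_finite K Z fun m hm z hz => (hZ m hm z hz).1)
    hC' hδ (hN0 N hN) B hB hsep hbad

end Pool.Agent.Helper87.QG
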