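import Mathlib
import Pool.Agent.Helper87.QG.Block
import Pool.Agent.Helper26.QS.Fin

/-!
# QG: all windows near `n ^ 2`, for almost all `n`
-/

set_option autoImplicit false

open Finset

namespace Pool.Agent.Helper87.QG

open Pool.Agent.Helper68.CO2 (lam)

/-- `(x, x + t]` contains at least `T` integers of each of the two kinds -/
def Rich (x : ℕ) (t T : ℝ) : Prop :=
  T ≤ ({z : ℕ | x < z ∧ (z : ℝ) ≤ (x : ℝ) + t ∧
    Even (ArithmeticFunction.cardFactors z)}.ncard : ℝ) ∧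
  T ≤ ({z : ℕ | x < z ∧ (z : ℝ) ≤ (x : ℝ) + t ∧
    Odd (ArithmeticFunction.cardFactors z)}.ncard : ℝ)

/-- windows are finite -/
theorem fin_window (x : ℕ) (t : ℝ) (Q : ℕ → Prop) :
    {z : ℕ | x < z ∧ (z : ℝ) ≤ (x : ℝ) + t ∧ Q z}.Finite := by
  refine (Set.finite_Icc 0 ⌊(x : ℝ) + t⌋₊).subset ?_
  rintro z ⟨-, h2, -⟩
  exact ⟨Nat.zero_le _, Nat.le_floor h2⟩

theorem poor_sign {M m x : ℕ} {δ ε : ℝ} (hδ1 : δ ≤ 1) (hε2 : 0 ≤ ε) (hε1 : ε ≤ 1)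
    (hm1 : M < m) (hm2 : m ≤ 2 * M) (hr : ¬ Rich x ((m : ℝ) ^ (1 - δ)) ((m : ℝ) ^ (1 - ε))) :
    ∃ s : ℤˣ, ({z : ℕ | x < z ∧ (z : ℝ) ≤ (x : ℝ) + (M : ℝ) ^ (1 - δ) ∧
      lam z ≠ s}.ncard : ℝ) ≤ 2 * (M : ℝ) ^ (1 - ε) := by
  have hMm : (M : ℝ) ≤ (m : ℝ) := by exact_mod_cast hm1.le
  have hm2' : (m : ℝ) ≤ 2 * (M : ℝ) := by exact_mod_cast hm2
  have hM0 : (0 : ℝ) ≤ (M : ℝ) := Nat.cast_nonneg M
  have hw : (M : ℝ) ^ (1 - δ) ≤ (m : ℝ) ^ (1 - δ) :=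
    Real.rpow_le_rpow hM0 hMm (by linarith)
  have hv : (m : ℝ) ^ (1 - ε) ≤ 2 * (M : ℝ) ^ (1 - ε) := by
    calc (m : ℝ) ^ (1 - ε) ≤ (2 * (M : ℝ)) ^ (1 - ε) :=
          Real.rpow_le_rpow (by linarith) hm2' (by linarith)
      _ = (2 : ℝ) ^ (1 - ε) * (M : ℝ) ^ (1 - ε) := Real.mul_rpow (by norm_num) hM0
      _ ≤ (2 : ℝ) ^ (1 : ℝ) * (M : ℝ) ^ (1 - ε) :=
          mul_le_mul_of_nonneg_right
            (Real.rpow_le_rpow_of_exponent_le (by norm_num) (by linarith))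
            (Real.rpow_nonneg hM0 _)
      _ = 2 * (M : ℝ) ^ (1 - ε) := by rw [Real.rpow_one]
  unfold Rich at hr
  rw [not_and_or] at hr
  rcases hr with hm3 | hm3
  · refine ⟨-1, ?_⟩
    have h1 : {z : ℕ | x < z ∧ (z : ℝ) ≤ (x : ℝ) + (M : ℝ) ^ (1 - δ) ∧
        lam z ≠ -1} ⊆ {z : ℕ | x < z ∧ (z : ℝ) ≤ (x : ℝ) + (m : ℝ) ^ (1 - δ) ∧
        Even (ArithmeticFunction.cardFactors z)} := by
      rintro z ⟨z1, z2, z3⟩
      refine ⟨z1, by linarith, ?_⟩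
      by_contra hcon
      rw [Nat.not_even_iff_odd] at hcon
      exact z3 hcon.neg_one_pow
    have h2 := Set.ncard_le_ncard h1 (fin_window x _ _)
    have h3 : (({z : ℕ | x < z ∧ (z : ℝ) ≤ (x : ℝ) + (M : ℝ) ^ (1 - δ) ∧
        lam z ≠ -1}.ncard : ℕ) : ℝ) ≤
        (({z : ℕ | x < z ∧ (z : ℝ) ≤ (x : ℝ) + (m : ℝ) ^ (1 - δ) ∧
        Even (ArithmeticFunction.cardFactors z)}.ncard : ℕ) : ℝ) := by exact_mod_cast h2
    push Not at hm3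
    exact h3.trans (hm3.le.trans hv)
  · refine ⟨1, ?_⟩
    have h1 : {z : ℕ | x < z ∧ (z : ℝ) ≤ (x : ℝ) + (M : ℝ) ^ (1 - δ) ∧
        lam z ≠ 1} ⊆ {z : ℕ | x < z ∧ (z : ℝ) ≤ (x : ℝ) + (m : ℝ) ^ (1 - δ) ∧
        Odd (ArithmeticFunction.cardFactors z)} := by
      rintro z ⟨z1, z2, z3⟩
      refine ⟨z1, by linarith, ?_⟩
      by_contra hcon
      rw [Nat.not_odd_iff_even] at hcon
      exact z3 hcon.neg_one_pow
    have h2 := Set.ncard_le_ncard h1 (fin_window x _ _)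
    have h3 : (({z : ℕ | x < z ∧ (z : ℝ) ≤ (x : ℝ) + (M : ℝ) ^ (1 - δ) ∧
        lam z ≠ 1}.ncard : ℕ) : ℝ) ≤
        (({z : ℕ | x < z ∧ (z : ℝ) ≤ (x : ℝ) + (m : ℝ) ^ (1 - δ) ∧
        Odd (ArithmeticFunction.cardFactors z)}.ncard : ℕ) : ℝ) := by exact_mod_cast h2
    push Not at hm3
    exact h3.trans (hm3.le.trans hv)

/-- separation -/
theorem sep {M m m' x x' : ℕ} (h1 : M < m) (h2 : m + 2 ≤ m') (h3 : x ≤ m ^ 2 + m)
    (h4 : m' ^ 2 ≤ x' + m') : x + M ≤ x' := by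
  obtain ⟨k, rfl⟩ := Nat.exists_eq_add_of_le h2
  nlinarith

/-- one residue class modulo `2` -/
theorem one_class {δ ε : ℝ} (hδ : 0 ≤ δ) (hε1 : ε ≤ 1) (hδε : 10 * δ < ε) {M : ℕ}
    (hM : ∀ B : Finset ℕ, (∀ m ∈ B, M ^ 2 ≤ m ∧ m ≤ 4 * M ^ 2) →
      (∀ m ∈ B, ∀ m' ∈ B, m ≠ m' → (M : ℤ) ≤ |(m : ℤ) - m'|) →
      (∀ m ∈ B, ∃ s : ℤˣ, ({z : ℕ | m < z ∧ (z : ℝ) ≤ (m : ℝ) + (M : ℝ) ^ (1 - δ) ∧
        lam z ≠ s}.ncard : ℝ) ≤ 2 * (M : ℝ) ^ (1 - ε)) → (#B : ℝ) ≤ (M : ℝ) ^ ε)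
    (S : Finset ℕ) (hS1 : ∀ m ∈ S, M < m ∧ m < 2 * M)
    (hS2 : ∀ m ∈ S, ∀ m' ∈ S, m < m' → m + 2 ≤ m')
    (hS3 : ∀ m ∈ S, ∃ x : ℕ, m ^ 2 ≤ x + m ∧ x ≤ m ^ 2 + m ∧
      ¬ Rich x ((m : ℝ) ^ (1 - δ)) ((m : ℝ) ^ (1 - ε))) : (#S : ℝ) ≤ (M : ℝ) ^ ε := by
  classical
  choose! x hx1 hx2 hx3 using hS3
  have hsep : ∀ m ∈ S, ∀ m' ∈ S, m < m' → x m + M ≤ x m' := fun m hm m' hm' hlt =>
    sep (hS1 m hm).1 (hS2 m hm m' hm' hlt) (hx2 m hm) (hx1 m' hm')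
  have hsep' : ∀ m ∈ S, ∀ m' ∈ S, m ≠ m' → (M : ℤ) ≤ |(x m : ℤ) - x m'| := by
    intro m hm m' hm' hne
    rcases lt_or_gt_of_ne hne with h | h
    · have := hsep m hm m' hm' h
      rw [abs_sub_comm]
      exact le_trans (by omega) (le_abs_self _)
    · have := hsep m' hm' m hm h
      exact le_trans (by omega) (le_abs_self _)
  have hinj : Set.InjOn x (S : Set ℕ) := by
    intro m hm m' hm' heq
    by_contra hne
    have h1 := hsep' m hm m' hm' hne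
    rw [heq, sub_self, abs_zero] at h1
    have h2 := (hS1 m hm).1
    have h3 := (hS1 m hm).2
    omega
  rw [← card_image_of_injOn hinj]
  refine hM _ ?_ ?_ ?_
  · intro y hy
    rw [mem_image] at hy
    obtain ⟨m, hm, rfl⟩ := hy
    have h1 := hx1 m hm
    have h2 := hx2 m hm
    obtain ⟨h3, h4⟩ := hS1 m hm
    constructor
    · have h5 : M ^ 2 + M + m ≤ m ^ 2 := by nlinarith
      omega
    · have h5 : m + 1 ≤ 2 * M := h4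
      have h6 : (m + 1) ^ 2 ≤ (2 * M) ^ 2 := Nat.pow_le_pow_left h5 2
      nlinarith
  · intro y hy y' hy' hne
    rw [mem_image] at hy hy'
    obtain ⟨m, hm, rfl⟩ := hy
    obtain ⟨m', hm', rfl⟩ := hy'
    exact hsep' m hm m' hm' (fun h => hne (by rw [h]))
  · intro y hy
    rw [mem_image] at hy
    obtain ⟨m, hm, rfl⟩ := hy
    obtain ⟨h3, h4⟩ := hS1 m hm
    exact poor_sign (by linarith) (by linarith) hε1 h3 h4.le (hx3 m hm)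

theorem few_near (δ ε : ℝ) (hδ : 0 ≤ δ) (h : 10 * δ < ε) : ∃ C : ℝ, ∀ N : ℕ, 1 ≤ N →
    ({m : ℕ | 1 ≤ m ∧ m ≤ N ∧ ∃ x : ℕ, m ^ 2 ≤ x + m ∧ x ≤ m ^ 2 + m ∧
      ¬ Rich x ((m : ℝ) ^ (1 - δ)) ((m : ℝ) ^ (1 - ε))}.ncard : ℝ) ≤ C * (N : ℝ) ^ ε := by
  classical
  obtain ⟨P, hP⟩ : ∃ P : ℕ → Prop, P = fun m : ℕ => ∃ x : ℕ, m ^ 2 ≤ x + m ∧ x ≤ m ^ 2 + m ∧
      ¬ Rich x ((m : ℝ) ^ (1 - δ)) ((m : ℝ) ^ (1 - ε)) := ⟨_, rfl⟩
  have hset : ∀ N : ℕ, {m : ℕ | 1 ≤ m ∧ m ≤ N ∧ ∃ x : ℕ, m ^ 2 ≤ x + m ∧ x ≤ m ^ 2 + m ∧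
      ¬ Rich x ((m : ℝ) ^ (1 - δ)) ((m : ℝ) ^ (1 - ε))}.ncard = #((Icc 1 N).filter P) := by
    intro N
    rw [← Set.ncard_coe_finset]
    congr 1
    ext m
    rw [mem_coe, mem_filter, mem_Icc, and_assoc, hP]
    rfl
  suffices hmain : ∃ C : ℝ, ∀ N : ℕ, 1 ≤ N → (#((Icc 1 N).filter P) : ℝ) ≤ C * (N : ℝ) ^ ε by
    obtain ⟨C, hC⟩ := hmain
    refine ⟨C, fun N hN => ?_⟩
    rw [hset]
    exact hC N hN
  have hε0 : 0 < ε := by linarith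
  rcases lt_or_ge 1 ε with hε1 | hε1
  · refine ⟨1, fun N hN => ?_⟩
    have hN1 : (1 : ℝ) ≤ (N : ℝ) := by exact_mod_cast hN
    have h1 : #((Icc 1 N).filter P) ≤ N := by
      refine (card_filter_le _ _).trans ?_
      rw [Nat.card_Icc]
      omega
    calc (#((Icc 1 N).filter P) : ℝ) ≤ (N : ℝ) := by exact_mod_cast h1
      _ = (N : ℝ) ^ (1 : ℝ) := (Real.rpow_one _).symm
      _ ≤ (N : ℝ) ^ ε := Real.rpow_le_rpow_of_exponent_le hN1 hε1.le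
      _ = 1 * (N : ℝ) ^ ε := (one_mul _).symm
  · obtain ⟨ε', hε'⟩ : ∃ ε' : ℝ, ε' = (10 * δ + ε) / 2 := ⟨_, rfl⟩
    have hε'1 : ε' < ε := by rw [hε']; linarith
    have hε'2 : 10 * δ < ε' := by rw [hε']; linarith
    obtain ⟨N0, hN0⟩ := blockG δ ε' hδ hε'2 (by linarith)
    obtain ⟨N1, hN1⟩ : ∃ N1 : ℕ, ∀ M : ℕ, N1 ≤ M → (3 : ℝ) ≤ (M : ℝ) ^ (ε - ε') := by
      have e1 := (tendsto_rpow_atTop (by linarith : 0 < ε - ε')).comp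
        (tendsto_natCast_atTop_atTop (R := ℝ))
      obtain ⟨N1, hN1⟩ := Filter.eventually_atTop.1 (e1.eventually_ge_atTop 3)
      exact ⟨N1, fun M hM => hN1 M hM⟩
    refine Pool.Agent.Helper26.QS.Fin_dyad P hε0 (max N0 (max N1 1)) fun M hM => ?_
    have hM0 : N0 ≤ M := (le_max_left _ _).trans hM
    have hM1 : N1 ≤ M := (le_max_left _ _).trans ((le_max_right _ _).trans hM)
    have hM2 : 1 ≤ M := (le_max_right _ _).trans ((le_max_right _ _).trans hM)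
    have hMR : (1 : ℝ) ≤ M := by exact_mod_cast hM2
    have hS3 : ∀ m ∈ (Ioc M (2 * M)).filter P, ∃ x : ℕ, m ^ 2 ≤ x + m ∧ x ≤ m ^ 2 + m ∧
        ¬ Rich x ((m : ℝ) ^ (1 - δ)) ((m : ℝ) ^ (1 - ε')) := by
      intro m hm
      rw [mem_filter, mem_Ioc, hP] at hm
      obtain ⟨⟨hm1, hm2⟩, x, hx1, hx2, hx3⟩ := hm
      refine ⟨x, hx1, hx2, fun hr => hx3 ?_⟩
      have hmR : (1 : ℝ) ≤ m := by
        have : 1 ≤ m := by omega
        exact_mod_cast this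
      have hpow : (m : ℝ) ^ (1 - ε) ≤ (m : ℝ) ^ (1 - ε') :=
        Real.rpow_le_rpow_of_exponent_le hmR (by linarith)
      exact ⟨hpow.trans hr.1, hpow.trans hr.2⟩
    have hcl : ∀ i : ℕ, (#(((Ioc M (2 * M)).filter P).filter fun m => m % 2 = i ∧ m ≠ 2 * M) : ℝ) ≤
        (M : ℝ) ^ ε' := by
      intro i
      refine one_class hδ (by linarith) hε'2 (hN0 M hM0) _ ?_ ?_ ?_
      · intro m hm
        rw [mem_filter, mem_filter, mem_Ioc] at hm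
        omega
      · intro m hm m' hm' hlt
        rw [mem_filter] at hm hm'
        omega
      · intro m hm
        rw [mem_filter] at hm
        exact hS3 m hm.1
    have hsub : (Ioc M (2 * M)).filter P ⊆
        ((((Ioc M (2 * M)).filter P).filter fun m => m % 2 = 0 ∧ m ≠ 2 * M) ∪
          (((Ioc M (2 * M)).filter P).filter fun m => m % 2 = 1 ∧ m ≠ 2 * M)) ∪ {2 * M} := by
      intro m hm
      rw [mem_union, mem_union, mem_singleton]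
      by_cases h1 : m = 2 * M
      · exact Or.inr h1
      · rcases Nat.mod_two_eq_zero_or_one m with h2 | h2
        · exact Or.inl (Or.inl (mem_filter.2 ⟨hm, h2, h1⟩))
        · exact Or.inl (Or.inr (mem_filter.2 ⟨hm, h2, h1⟩))
    have h1 : (#((Ioc M (2 * M)).filter P) : ℝ) ≤ (M : ℝ) ^ ε' + (M : ℝ) ^ ε' + 1 := by
      have e1 := card_le_card hsub
      have e2 := (card_union_le (((((Ioc M (2 * M)).filter P).filter
        fun m => m % 2 = 0 ∧ m ≠ 2 * M) ∪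
          (((Ioc M (2 * M)).filter P).filter fun m => m % 2 = 1 ∧ m ≠ 2 * M))) {2 * M})
      have e3 := card_union_le (((Ioc M (2 * M)).filter P).filter fun m => m % 2 = 0 ∧ m ≠ 2 * M)
        (((Ioc M (2 * M)).filter P).filter fun m => m % 2 = 1 ∧ m ≠ 2 * M)
      rw [card_singleton] at e2
      have e4 : #((Ioc M (2 * M)).filter P) ≤
          #(((Ioc M (2 * M)).filter P).filter fun m => m % 2 = 0 ∧ m ≠ 2 * M) +
          #(((Ioc M (2 * M)).filter P).filter fun m => m % 2 = 1 ∧ m ≠ 2 * M) + 1 := by omega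
      have e5 : (#((Ioc M (2 * M)).filter P) : ℝ) ≤
          (#(((Ioc M (2 * M)).filter P).filter fun m => m % 2 = 0 ∧ m ≠ 2 * M) : ℝ) +
          (#(((Ioc M (2 * M)).filter P).filter fun m => m % 2 = 1 ∧ m ≠ 2 * M) : ℝ) + 1 := by
        exact_mod_cast e4
      have e6 := hcl 0
      have e7 := hcl 1
      linarith
    have h2 : 1 ≤ (M : ℝ) ^ ε' := Real.one_le_rpow hMR (by linarith)
    have h3 : (M : ℝ) ^ ε = (M : ℝ) ^ (ε - ε') * (M : ℝ) ^ ε' := by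
      rw [← Real.rpow_add (by linarith)]
      congr 1
      ring
    have h4 := hN1 M hM1
    rw [h3]
    nlinarith

end Pool.Agent.Helper87.QG
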